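import Mathlib
import Pool.Agent.helper1.SF.SpecA

set_option autoImplicit false

namespace SF

open Pool.Agent.helper72.Sq MeasureTheory Set
open scoped ContDiff

theorem JEA_qq_pos {l l' y : ℝ} (hl : 1 ≤ l) (hy : 0 < y) : 0 < qq l l' y := by
  unfold qq
  have h1 : 0 ≤ y * l' ^ 2 := by positivity
  have h2 : 0 < l ^ 2 / y := by positivity
  linarith

theorem JEA_cont (hWS : WS_stmt) (hBS : BS_stmt) {g : ℝ → ℝ} (hg : Prof g) {l l' y0 : ℝ}
    (hl : 1 ≤ l) (hy0 : 0 < y0) :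
    ContinuousOn (fun y => 1 / √(qq l l' y) * dX (ww g) (ss l l' y) 0 y) (Icc y0 1) := by
  have hpos : ∀ y ∈ Icc y0 1, 0 < y := fun y hy => lt_of_lt_of_le hy0 hy.1
  have hq : ContinuousOn (fun y => qq l l' y) (Icc y0 1) := by
    unfold qq
    apply ContinuousOn.add
    · fun_prop
    · apply ContinuousOn.div continuousOn_const continuousOn_id
      intro y hy
      exact (hpos y hy).ne'
  have hs : ContinuousOn (fun y => ss l l' y) (Icc y0 1) := by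
    unfold ss
    apply ContinuousOn.mul continuousOn_const
    apply ContinuousOn.log hq
    intro y hy
    exact (JEA_qq_pos hl (hpos y hy)).ne'
  have hsm : Sm (dX (ww g)) := (hBS (ww g) (hWS g hg).1).2.1
  have hc : ContinuousOn (fun p : ℝ × ℝ × ℝ => dX (ww g) p.1 p.2.1 p.2.2) {p | 0 < p.2.2} := hsm.continuousOn
  have hpath : ContinuousOn (fun y : ℝ => ((ss l l' y, (0 : ℝ), y) : ℝ × ℝ × ℝ)) (Icc y0 1) :=
    hs.prodMk (continuousOn_const.prodMk continuousOn_id)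
  have hcomp := hc.comp hpath (fun y hy => hpos y hy)
  apply ContinuousOn.mul _ hcomp
  apply ContinuousOn.div continuousOn_const (hq.sqrt)
  intro y hy
  exact (Real.sqrt_pos.mpr (JEA_qq_pos hl (hpos y hy))).ne'

theorem JEA_half (hJDM : JDM_stmt) (hZSA : ZSA_stmt) (hEXK : EXK_stmt) (hWS : WS_stmt) (hBS : BS_stmt) :
    ∃ C : ℝ, 0 < C ∧ ∀ (κ : ℝ) (g : ℝ → ℝ) (l l' δ y0 : ℝ), Pk κ g →
      1 ≤ l → 1 ≤ l' → 0 < δ → δ ≤ 1 → 0 < y0 → y0 ≤ 1 / 2 → NR δ l l' →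
      200 * κ * (l + l') ^ 2 ≤ δ →
      |jh g y0 l l' - Ex g y0 l l'| ≤
        C * (l + l') ^ 4 * Real.log (1 / y0) / √δ * ∫ σ in (1 : ℝ)..2, |deriv g σ| := by
  obtain ⟨C1, hC1, h1⟩ := hJDM
  obtain ⟨C2, hC2, h2⟩ := hZSA
  refine ⟨C1 * C2, by positivity, ?_⟩
  intro κ g l l' δ y0 hPk hl hl' hδ hδ1 hy0 hy1 hNR hκ
  have hPg : Pg g := by
    refine ⟨hPk.1, fun a ha => ?_⟩
    apply hPk.2.2.2 a
    right
    linarith [hPk.2.2.1]
  set N : ℕ := ⌈8 * (l + l') / y0⌉₊ with hN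
  have hNle : 8 * (l + l') ≤ N * y0 := by
    have := Nat.le_ceil (8 * (l + l') / y0)
    rw [div_le_iff₀ hy0] at this
    exact this
  have hN0 : (0 : ℝ) ≤ N := Nat.cast_nonneg N
  obtain ⟨hT, _, _, hEx⟩ := hEXK g hPg l l' y0 N hl hl' hy0 (by linarith) hNle
  obtain ⟨hMi, hMle⟩ := h2 κ g l l' δ y0 hPk hl hl' hδ hδ1 hy0 hy1 hNR hκ
    (Finset.Icc (-(N : ℤ)) N ×ˢ Finset.Icc (-(N : ℤ)) N)
  have hy0le : y0 ≤ 1 := by linarith
  set f : ℝ → ℝ := fun y => 1 / √(qq l l' y) * dX (ww g) (ss l l' y) 0 y with hf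
  set S : ℝ → ℝ := fun y => ∑ m ∈ Finset.Icc (-(N : ℤ)) N, chi m * TT g l l' y m with hS
  set M : ℝ → ℝ := fun y => ∑ v ∈ Finset.Icc (-(N : ℤ)) N ×ˢ Finset.Icc (-(N : ℤ)) N,
    MM g (Av l l' v y) with hM
  have hfi : IntervalIntegrable f volume y0 1 := by
    apply ContinuousOn.intervalIntegrable
    rw [uIcc_of_le hy0le]
    exact JEA_cont hWS hBS hPk.1 hl hy0
  have hSi : IntervalIntegrable S volume y0 1 := by
    have : S = ∑ m ∈ Finset.Icc (-(N : ℤ)) N, fun y => chi m * TT g l l' y m := by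
      funext y
      rw [hS, Finset.sum_apply]
    rw [this]
    apply IntervalIntegrable.sum
    intro m _
    exact (hT m).const_mul _
  have hjh : jh g y0 l l' - Ex g y0 l l' = 1 / 2 * ∫ y in y0..1, (f y - S y) := by
    rw [intervalIntegral.integral_sub hfi hSi, mul_sub, ← hEx]
    rfl
  rw [hjh, abs_mul]
  have hpt : ∀ y ∈ Icc y0 1, |f y - S y| ≤ C1 * M y := by
    intro y hy
    apply h1 g hPg l l' y N hl hl' (lt_of_lt_of_le hy0 hy.1) hy.2
    calc 8 * (l + l') ≤ N * y0 := hNle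
      _ ≤ N * y := mul_le_mul_of_nonneg_left hy.1 hN0
  have hint : |∫ y in y0..1, (f y - S y)| ≤ C1 * ∫ y in y0..1, M y := by
    rw [← intervalIntegral.integral_const_mul]
    refine le_trans (intervalIntegral.abs_integral_le_integral_abs hy0le) ?_
    apply intervalIntegral.integral_mono_on hy0le (hfi.sub hSi).abs (hMi.const_mul _)
    exact hpt
  have h3 : |(1 / 2 : ℝ)| = 1 / 2 := abs_of_pos (by norm_num)
  rw [h3]
  have h4 : C1 * ∫ y in y0..1, M y ≤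
      C1 * (C2 * (l + l') ^ 4 * Real.log (1 / y0) / √δ * ∫ σ in (1 : ℝ)..2, |deriv g σ|) :=
    mul_le_mul_of_nonneg_left hMle hC1.le
  have h5 : 0 ≤ |∫ y in y0..1, (f y - S y)| := abs_nonneg _
  calc 1 / 2 * |∫ y in y0..1, (f y - S y)| ≤ |∫ y in y0..1, (f y - S y)| := by linarith
    _ ≤ _ := hint.trans h4
    _ = _ := by ring

theorem JEA (hJTW : JTW_stmt) (hJDM : JDM_stmt) (hZSA : ZSA_stmt) (hEXK : EXK_stmt) (hWS : WS_stmt)
    (hBS : BS_stmt) : JEA_stmt := by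
  obtain ⟨C1, hC1, h1⟩ := hJTW
  obtain ⟨C2, hC2, h2⟩ := JEA_half hJDM hZSA hEXK hWS hBS
  refine ⟨C1 + 2 * C2, by positivity, ?_⟩
  intro κ g B l l' δ y0 hPk hBd hl hl' hδ hδ1 hy0 hy1 hNR hκ
  have hB : 0 ≤ B := le_trans (abs_nonneg _) (hBd 0 (by norm_num) 0)
  have hNR' : NR δ l' l := by
    intro p1 p2
    exact (hNR p2 p1).symm
  have a1 := h1 g B l l' y0 hPk.1 hBd hl hl' hy0 (by linarith)
  have a2 := h2 κ g l l' δ y0 hPk hl hl' hδ hδ1 hy0 hy1 hNR hκ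
  have a3 := h2 κ g l' l δ y0 hPk hl' hl hδ hδ1 hy0 hy1 hNR' (by rw [add_comm]; exact hκ)
  rw [add_comm l' l] at a3
  set I : ℝ := ∫ σ in (1 : ℝ)..2, |deriv g σ| with hI
  have hI0 : 0 ≤ I := intervalIntegral.integral_nonneg (by norm_num) fun σ _ => abs_nonneg _
  have hlog : 0 ≤ Real.log (1 / y0) := by
    apply Real.log_nonneg
    rw [le_div_iff₀ hy0]
    linarith
  set R : ℝ := (l + l') ^ 4 * Real.log (1 / y0) / √δ * I with hR
  have hR0 : 0 ≤ R := by positivity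
  have e1 : C2 * (l + l') ^ 4 * Real.log (1 / y0) / √δ * I = C2 * R := by rw [hR]; ring
  have e2 : (C1 + 2 * C2) * (l + l') ^ 4 * Real.log (1 / y0) / √δ * I = (C1 + 2 * C2) * R := by rw [hR]; ring
  rw [e1] at a2 a3
  rw [e2]
  have hsq : 0 ≤ B * √y0 := by positivity
  rw [abs_le] at a1 a2 a3 ⊢
  constructor
  · nlinarith [a1.1, a2.1, a3.2, mul_nonneg hC1.le hR0, mul_nonneg hC2.le hsq]
  · nlinarith [a1.2, a2.2, a3.1, mul_nonneg hC1.le hR0, mul_nonneg hC2.le hsq]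

end SF
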