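import Mathlib
import Pool.Agent.helper68.SF.SpecE

set_option autoImplicit false

namespace SF

open MeasureTheory
open scoped ContDiff

/-- the energy density -/
noncomputable def RFQ_e (h : ℝ × ℝ → ℝ) (p : ℝ × ℝ) : ℝ := h p ^ 2 + px h p ^ 2 + py h p ^ 2

theorem RFQ_e_nonneg (h : ℝ × ℝ → ℝ) (p : ℝ × ℝ) : 0 ≤ RFQ_e h p := by
  unfold RFQ_e
  positivity

theorem RFQ_open : IsOpen {p : ℝ × ℝ | 0 < p.2} := isOpen_lt continuous_const continuous_snd

theorem RFQ_cont {h : ℝ × ℝ → ℝ} (hh : ContDiffOn ℝ ∞ h {p | 0 < p.2}) :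
    ContinuousOn (RFQ_e h) {p | 0 < p.2} := by
  have h1 : ContinuousOn (fun p => fderiv ℝ h p) {p | 0 < p.2} :=
    hh.continuousOn_fderiv_of_isOpen RFQ_open (by simp)
  have h2 : ContinuousOn (fun p => px h p) {p | 0 < p.2} := h1.clm_apply continuousOn_const
  have h3 : ContinuousOn (fun p => py h p) {p | 0 < p.2} := h1.clm_apply continuousOn_const
  unfold RFQ_e
  exact ((hh.continuousOn.pow 2).add (h2.pow 2)).add (h3.pow 2)

/-- the mirror image -/
noncomputable def RFQ_R : (ℝ × ℝ) ≃ᵐ (ℝ × ℝ) := (MeasurableEquiv.neg ℝ).prodCongr (MeasurableEquiv.refl ℝ)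

theorem RFQ_R_apply (p : ℝ × ℝ) : RFQ_R p = (-p.1, p.2) := rfl

theorem RFQ_R_mp : MeasurePreserving RFQ_R (volume : Measure (ℝ × ℝ)) volume := by
  have h1 : MeasurePreserving (fun x : ℝ => -x) volume volume := Measure.measurePreserving_neg volume
  have h2 : MeasurePreserving (id : ℝ → ℝ) volume volume := MeasurePreserving.id volume
  have := h1.prod h2
  exact this

theorem RFQ_even {h : ℝ × ℝ → ℝ} (hh : ContDiffOn ℝ ∞ h {p | 0 < p.2})
    (hodd : ∀ x y : ℝ, 0 < y → h (-x, y) = -h (x, y)) {p : ℝ × ℝ} (hp : 0 < p.2) :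
    RFQ_e h (-p.1, p.2) = RFQ_e h p := by
  set R : (ℝ × ℝ) →L[ℝ] (ℝ × ℝ) := (-(ContinuousLinearMap.fst ℝ ℝ ℝ)).prod (ContinuousLinearMap.snd ℝ ℝ ℝ) with hR
  have hRa : ∀ q : ℝ × ℝ, R q = (-q.1, q.2) := fun q => by simp [hR]
  have hq : (-p.1, p.2) ∈ {p : ℝ × ℝ | 0 < p.2} := hp
  have hdiff : DifferentiableAt ℝ h (R p) := by
    rw [hRa]
    exact (hh.contDiffAt (RFQ_open.mem_nhds hq)).differentiableAt (by simp)
  have hev : (fun q => h (R q)) =ᶠ[nhds p] fun q => -h q := by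
    filter_upwards [RFQ_open.mem_nhds hp] with q hq
    rw [hRa]
    exact hodd q.1 q.2 hq
  have hf1 : fderiv ℝ (fun q => h (R q)) p = (fderiv ℝ h (R p)).comp R := by
    have := fderiv_comp p hdiff R.differentiableAt
    rw [R.fderiv] at this
    exact this
  have hf2 : fderiv ℝ (fun q => h (R q)) p = -fderiv ℝ h p := by
    rw [hev.fderiv_eq]
    exact fderiv_neg
  rw [hf1] at hf2
  have e1 : px h (-p.1, p.2) = px h p := by
    have := congrArg (fun (T : (ℝ × ℝ) →L[ℝ] ℝ) => T (1, 0)) hf2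
    simp only [ContinuousLinearMap.comp_apply, neg_apply, hRa] at this
    unfold px
    have h3 : ((-1 : ℝ), (0 : ℝ)) = -((1 : ℝ), (0 : ℝ)) := by simp
    rw [h3, map_neg] at this
    linarith
  have e2 : py h (-p.1, p.2) = -py h p := by
    have := congrArg (fun (T : (ℝ × ℝ) →L[ℝ] ℝ) => T (0, 1)) hf2
    simp only [ContinuousLinearMap.comp_apply, neg_apply, hRa, neg_zero] at this
    unfold py
    exact this
  unfold RFQ_e
  rw [e1, e2, hodd p.1 p.2 hp]
  ring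

theorem RFQ_circle : volume {p : ℝ × ℝ | p.1 ^ 2 + p.2 ^ 2 = 1} = 0 := by
  have hm : MeasurableSet {p : ℝ × ℝ | p.1 ^ 2 + p.2 ^ 2 = 1} := by
    apply measurableSet_eq_fun
    · fun_prop
    · fun_prop
  have : (volume : Measure (ℝ × ℝ)) = (volume : Measure ℝ).prod volume := rfl
  rw [this, Measure.measure_prod_null hm]
  refine Filter.Eventually.of_forall fun x => ?_
  show volume (Prod.mk x ⁻¹' {p : ℝ × ℝ | p.1 ^ 2 + p.2 ^ 2 = 1}) = 0
  have hsub : Prod.mk x ⁻¹' {p : ℝ × ℝ | p.1 ^ 2 + p.2 ^ 2 = 1} ⊆ {√(1 - x ^ 2), -√(1 - x ^ 2)} := by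
    intro y hy
    have hy' : x ^ 2 + y ^ 2 = 1 := hy
    have h1 : y ^ 2 = 1 - x ^ 2 := by linarith
    have h2 : √(1 - x ^ 2) = |y| := by rw [← h1, Real.sqrt_sq_eq_abs]
    rw [h2]
    rcases abs_choice y with h | h
    · left; exact h.symm
    · right; show y = -|y|; rw [h]; ring
  exact measure_mono_null hsub ((Set.toFinite _).measure_zero _)

theorem RFQ (hRFG : RFG_stmt) : RFQ_stmt := by
  refine ⟨21, by norm_num, ?_⟩
  intro h hh hodd hinv hint y0 hy0
  change y0 ^ 2 * ∫ p in Qb y0, RFQ_e h p ≤ 21 * ∫ p in Dm, p.2 ^ 2 * RFQ_e h p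
  have hint' : IntegrableOn (fun p : ℝ × ℝ => p.2 ^ 2 * RFQ_e h p) Dm := hint
  set J : Set ℝ := Set.Icc (y0 - 1 / 4) (y0 + 1 / 4) with hJ
  set N : Set (ℝ × ℝ) := Set.Icc (-(1 / 4)) 0 ×ˢ J with hN
  set P0 : Set (ℝ × ℝ) := Set.Icc 0 (1 / 4) ×ˢ J with hP0
  set P : Set (ℝ × ℝ) := Set.Ioc 0 (1 / 4) ×ˢ J with hP
  have hcont := RFQ_cont hh
  have hQpos : ∀ p ∈ Qb y0, 0 < p.2 := by
    rintro p ⟨_, h2⟩
    have := h2.1
    linarith
  have hQint : IntegrableOn (RFQ_e h) (Qb y0) :=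
    (hcont.mono hQpos).integrableOn_compact (isCompact_Icc.prod isCompact_Icc)
  have hNm : MeasurableSet N := measurableSet_Icc.prod measurableSet_Icc
  have hPm : MeasurableSet P := measurableSet_Ioc.prod measurableSet_Icc
  have hunion : Qb y0 = N ∪ P := by
    ext p
    constructor
    · rintro ⟨⟨h1, h2⟩, h3⟩
      rcases le_or_gt p.1 0 with h | h
      · left; exact ⟨⟨h1, h⟩, h3⟩
      · right; exact ⟨⟨h, h2⟩, h3⟩
    · rintro (⟨⟨h1, h2⟩, h3⟩ | ⟨⟨h1, h2⟩, h3⟩)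
      · exact ⟨⟨h1, by linarith⟩, h3⟩
      · exact ⟨⟨by linarith, h2⟩, h3⟩
  have hdisj : Disjoint N P := by
    rw [Set.disjoint_left]
    rintro p ⟨⟨_, h2⟩, _⟩ ⟨⟨h1, _⟩, _⟩
    linarith
  have hNint : IntegrableOn (RFQ_e h) N := hQint.mono_set (by rw [hunion]; exact Set.subset_union_left)
  have hPint : IntegrableOn (RFQ_e h) P := hQint.mono_set (by rw [hunion]; exact Set.subset_union_right)
  have hsum : ∫ p in Qb y0, RFQ_e h p = (∫ p in N, RFQ_e h p) + ∫ p in P, RFQ_e h p := by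
    rw [hunion]
    exact setIntegral_union hdisj hPm hNint hPint
  have hNP : ∫ p in N, RFQ_e h p = ∫ p in P, RFQ_e h p := by
    have h1 := RFQ_R_mp.setIntegral_preimage_emb RFQ_R.measurableEmbedding (RFQ_e h) N
    have h2 : RFQ_R ⁻¹' N = P0 := by
      ext p
      simp only [Set.mem_preimage, RFQ_R_apply, hN, hP0, Set.mem_prod, Set.mem_Icc]
      constructor
      · rintro ⟨⟨a, b⟩, c⟩
        exact ⟨⟨by linarith, by linarith⟩, c⟩
      · rintro ⟨⟨a, b⟩, c⟩
        exact ⟨⟨by linarith, by linarith⟩, c⟩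
    rw [h2] at h1
    rw [← h1]
    have h3 : ∫ p in P0, RFQ_e h (RFQ_R p) = ∫ p in P0, RFQ_e h p := by
      apply setIntegral_congr_fun (measurableSet_Icc.prod measurableSet_Icc)
      rintro p ⟨_, hp2⟩
      show RFQ_e h (RFQ_R p) = RFQ_e h p
      rw [RFQ_R_apply]
      apply RFQ_even hh hodd
      have := hp2.1
      linarith
    rw [h3]
    apply setIntegral_congr_set
    exact Measure.set_prod_ae_eq Ioc_ae_eq_Icc.symm (Filter.EventuallyEq.refl _ _)
  set t : Set (ℝ × ℝ) := {p : ℝ × ℝ | 1 < p.1 ^ 2 + p.2 ^ 2} with ht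
  have htm : MeasurableSet t := by
    apply measurableSet_lt
    · fun_prop
    · fun_prop
  have hsplit := integral_inter_add_sdiff htm hPint
  set A : Set (ℝ × ℝ) := P ∩ {p : ℝ × ℝ | p.1 ^ 2 + p.2 ^ 2 < 1} with hA
  have hAm : MeasurableSet A := by
    apply hPm.inter
    apply measurableSet_lt
    · fun_prop
    · fun_prop
  have hAeq : ∫ p in P \ t, RFQ_e h p = ∫ p in A, RFQ_e h p := by
    apply setIntegral_congr_set
    have hnull := RFQ_circle
    have : ∀ᵐ p ∂(volume : Measure (ℝ × ℝ)), p ∉ {p : ℝ × ℝ | p.1 ^ 2 + p.2 ^ 2 = 1} :=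
      measure_eq_zero_iff_ae_notMem.mp hnull
    filter_upwards [this] with p hp
    apply propext
    constructor
    · rintro ⟨a, b⟩
      refine ⟨a, ?_⟩
      have b' : ¬ (1 < p.1 ^ 2 + p.2 ^ 2) := b
      have hp' : ¬ (p.1 ^ 2 + p.2 ^ 2 = 1) := hp
      exact lt_of_le_of_ne (not_lt.mp b') hp'
    · rintro ⟨a, b⟩
      refine ⟨a, ?_⟩
      have b' : p.1 ^ 2 + p.2 ^ 2 < 1 := b
      show ¬ (1 < p.1 ^ 2 + p.2 ^ 2)
      linarith
  have hDmm : MeasurableSet Dm := by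
    unfold Dm
    apply MeasurableSet.inter (measurableSet_lt measurable_const measurable_fst)
    apply MeasurableSet.inter (measurableSet_lt measurable_fst measurable_const)
    apply MeasurableSet.inter (measurableSet_lt measurable_const measurable_snd)
    exact htm
  have hDy : ∀ p ∈ Dm, 3 / 4 ≤ p.2 ^ 2 := by
    rintro p ⟨h1, h2, h3, h4⟩
    nlinarith
  have hcontD : ContinuousOn (RFQ_e h) Dm := hcont.mono (fun p hp => hp.2.2.1)
  have hDint : IntegrableOn (RFQ_e h) Dm := by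
    refine Integrable.mono' (hint'.const_mul (4 / 3)) (hcontD.aestronglyMeasurable hDmm) ?_
    rw [ae_restrict_iff' hDmm]
    refine Filter.Eventually.of_forall fun p hp => ?_
    rw [Real.norm_of_nonneg (RFQ_e_nonneg h p)]
    have h1 := hDy p hp
    have h2 := RFQ_e_nonneg h p
    nlinarith
  have hDle : ∫ p in Dm, RFQ_e h p ≤ 4 / 3 * ∫ p in Dm, p.2 ^ 2 * RFQ_e h p := by
    rw [← integral_const_mul]
    apply setIntegral_mono_on hDint (hint'.const_mul _) hDmm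
    intro p hp
    have h1 := hDy p hp
    have h2 := RFQ_e_nonneg h p
    nlinarith
  have hI0 : 0 ≤ ∫ p in Dm, p.2 ^ 2 * RFQ_e h p :=
    integral_nonneg fun p => mul_nonneg (sq_nonneg _) (RFQ_e_nonneg h p)
  -- the part outside the circle
  have hout : y0 ^ 2 * ∫ p in P ∩ t, RFQ_e h p ≤ 16 / 9 * ∫ p in Dm, p.2 ^ 2 * RFQ_e h p := by
    have hsub : P ∩ t ⊆ Dm := by
      rintro p ⟨⟨⟨h1, h2⟩, h3⟩, h4⟩
      refine ⟨h1, by linarith, ?_, h4⟩
      have := h3.1
      linarith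
    rw [← integral_const_mul, ← integral_const_mul]
    calc ∫ p in P ∩ t, y0 ^ 2 * RFQ_e h p ≤ ∫ p in P ∩ t, 16 / 9 * (p.2 ^ 2 * RFQ_e h p) := by
          apply setIntegral_mono_on ((hPint.mono_set Set.inter_subset_left).const_mul _)
            ((hint'.mono_set hsub).const_mul _) (hPm.inter htm)
          rintro p ⟨⟨_, h3⟩, _⟩
          have h1 := h3.1
          have h2 := RFQ_e_nonneg h p
          have h5 : 3 / 4 * y0 ≤ p.2 := by linarith
          have h6 : (3 / 4 * y0) ^ 2 ≤ p.2 ^ 2 := by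
            apply pow_le_pow_left₀ (by linarith) h5
          nlinarith
      _ ≤ ∫ p in Dm, 16 / 9 * (p.2 ^ 2 * RFQ_e h p) := by
          apply setIntegral_mono_set (hint'.const_mul _)
          · refine Filter.Eventually.of_forall fun p => ?_
            show 0 ≤ 16 / 9 * (p.2 ^ 2 * RFQ_e h p)
            have := RFQ_e_nonneg h p
            positivity
          · exact hsub.eventuallyLE
  -- the part inside the circle
  have hin : y0 ^ 2 * ∫ p in A, RFQ_e h p ≤ 25 / 3 * ∫ p in Dm, p.2 ^ 2 * RFQ_e h p := by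
    rcases le_or_gt (5 / 4) y0 with hy | hy
    · have hempty : A = ∅ := by
        rw [Set.eq_empty_iff_forall_notMem]
        rintro p ⟨⟨⟨h1, h2⟩, h3⟩, h4⟩
        have h5 := h3.1
        have h6 : p.1 ^ 2 + p.2 ^ 2 < 1 := h4
        nlinarith
      rw [hempty]
      simp only [Measure.restrict_empty, integral_zero_measure, mul_zero]
      positivity
    · have hr := (hRFG h A hh hinv hAm ?_ hDint).2
      · have hr' : ∫ p in A, RFQ_e h p ≤ 4 * ∫ p in Dm, RFQ_e h p := hr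
        have h1 : y0 ^ 2 ≤ 25 / 16 := by nlinarith
        have h2 : 0 ≤ ∫ p in A, RFQ_e h p := integral_nonneg fun p => RFQ_e_nonneg h p
        calc y0 ^ 2 * ∫ p in A, RFQ_e h p ≤ 25 / 16 * ∫ p in A, RFQ_e h p :=
              mul_le_mul_of_nonneg_right h1 h2
          _ ≤ _ := by linarith
      · rintro p ⟨⟨⟨h1, h2⟩, h3⟩, h4⟩
        have h5 := h3.1
        have h6 : p.1 ^ 2 + p.2 ^ 2 < 1 := h4
        have h7 : 3 / 4 ≤ p.2 := by linarith
        have h8 : 9 / 16 ≤ p.2 ^ 2 := by nlinarith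
        refine ⟨h1, by linarith, h6, by nlinarith [sq_nonneg p.1], by nlinarith [sq_nonneg p.1]⟩
  rw [hsum, hNP, ← hsplit, hAeq]
  have : y0 ^ 2 * (((∫ p in P ∩ t, RFQ_e h p) + ∫ p in A, RFQ_e h p) + ((∫ p in P ∩ t, RFQ_e h p) +
      ∫ p in A, RFQ_e h p)) = 2 * (y0 ^ 2 * ∫ p in P ∩ t, RFQ_e h p) + 2 * (y0 ^ 2 * ∫ p in A, RFQ_e h p) := by
    ring
  rw [this]
  linarith

end SF
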